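import Mathlib

open Finset

namespace Pool.Agent.Helper112.LP

/-- the primes `l` with `2^(2^(j-1)) ≤ l < 2^(2^j)` (empty for `j = 0`) -/
def Gj (j : ℕ) : Finset ℕ := (Ico (2 ^ 2 ^ (j - 1)) (2 ^ 2 ^ j)).filter Nat.Prime

/-- product of the primes below `2^(2^J)` -/
def PP (J : ℕ) : ℕ := ∏ l ∈ (range (2 ^ 2 ^ J)).filter Nat.Prime, l

/-- number of binary lengths of divisors of `a` -/
def ell (a : ℕ) : ℕ := (a.divisors.image (Nat.log 2)).card

/-- products `u v`, `1 ≤ u, v ≤ p - 1`, with `u v ≡ 1 mod p` -/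
def NS (p : ℕ) : Finset ℕ :=
  ((Icc 1 (p - 1) ×ˢ Icc 1 (p - 1)).filter (fun uv => uv.1 * uv.2 ≡ 1 [MOD p])).image
    (fun uv => uv.1 * uv.2)

/-- weight of the `n`-step paths from height `h` to height `s`; a step goes from height `r` to
`r + 1 - b` (`b : ℕ`) with weight `1 / b!`; all heights after the start are `≥ 1` -/
noncomputable def gw (h : ℕ) : ℕ → ℕ → ℝ
  | 0, s => if s = h then 1 else 0
  | _ + 1, 0 => 0
  | n + 1, s + 1 => ∑ r ∈ range (h + n + 1), if s ≤ r then gw h n r / (r - s).factorial else 0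

/-- the vector `b` describes a path of `j` steps from height `M` to height `s` that stays `≥ 1`
(the height after `l` steps is `M + l - (b 0 + ... + b (l-1))`) -/
def PathOK (M s : ℕ) {j : ℕ} (b : Fin j → ℕ) : Prop :=
  (∀ l ∈ Icc 1 j, (∑ i : Fin j, if (i : ℕ) < l then b i else 0) + 1 ≤ M + l) ∧
    (∑ i, b i) + s = M + j

instance (M s j : ℕ) : DecidablePred (fun b : Fin j → ℕ => PathOK M s b) := fun b => by
  unfold PathOK; infer_instance

/-- parking vectors -/
def Park (k : ℕ) : Finset (Fin k → ℕ) :=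
  (Fintype.piFinset (fun _ : Fin k => range (k + 1))).filter (fun b => PathOK 0 1 b)

/-- choices of `b i` primes in the group `M + 1 + i`, for each `i` -/
def Sel (M k : ℕ) (b : Fin k → ℕ) : Finset (Fin k → Finset ℕ) :=
  Fintype.piFinset (fun i => (Gj (M + 1 + i)).powersetCard (b i))

/-- product of all selected primes -/
def pT {k : ℕ} (T : Fin k → Finset ℕ) : ℕ := ∏ i, ∏ l ∈ T i, l

/-- number of pairs of divisors of the same binary length -/
def Wc (a : ℕ) : ℕ :=
  ((a.divisors ×ˢ a.divisors).filter (fun d => Nat.log 2 d.1 = Nat.log 2 d.2)).card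

end Pool.Agent.Helper112.LP
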