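import Pool.Agent.H38.LR.S8.Helper112.Lp.Defs
import Pool.Agent.H38.LR.S8.Helper112.Lp.Kmg

open Finset

namespace Pool.Agent.Helper112.LP.Kmt

/- TARGET -/
/-- few primes `l` of a group such that `l * x` has a given binary length -/
theorem short_group : ∃ C : ℝ, 0 < C ∧ ∀ j : ℕ, 1 ≤ j → ∀ x k : ℕ, 1 ≤ x →
    ∑ l ∈ (Gj j).filter (fun l => Nat.log 2 (l * x) = k), (1 : ℝ) / l ≤ C / 2 ^ j := by
  refine ⟨8, by norm_num, ?_⟩
  intro j hj x k hx
  set F := (Gj j).filter (fun l => Nat.log 2 (l * x) = k) with hF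
  rcases F.eq_empty_or_nonempty with hE | hne
  · rw [hE, Finset.sum_empty]; positivity
  set m := F.min' hne with hm
  have hmF : m ∈ F := F.min'_mem hne
  have hprime : ∀ l ∈ F, l.Prime := by
    intro l hl
    rw [hF, mem_filter, Gj, mem_filter] at hl
    exact hl.1.2
  have hlow : ∀ l ∈ F, 2 ^ 2 ^ (j - 1) ≤ l := by
    intro l hl
    rw [hF, mem_filter, Gj, mem_filter, mem_Ico] at hl
    exact hl.1.1.1
  have hlog : ∀ l ∈ F, Nat.log 2 (l * x) = k := by
    intro l hl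
    rw [hF, mem_filter] at hl
    exact hl.2
  have hlt : ∀ l ∈ F, l < 2 * m := by
    intro l hl
    have h1 : l * x < 2 ^ (k + 1) := by
      rw [← hlog l hl]
      exact Nat.lt_pow_succ_log_self (by norm_num) _
    have h2 : 2 ^ k ≤ m * x := by
      rw [← hlog m hmF]
      exact Nat.pow_log_le_self 2 (Nat.mul_pos (hprime m hmF).pos hx).ne'
    have h3 : l * x < 2 * m * x := by
      calc l * x < 2 ^ (k + 1) := h1
        _ = 2 * 2 ^ k := by rw [pow_succ]; ring
        _ ≤ 2 * (m * x) := Nat.mul_le_mul_left 2 h2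
        _ = 2 * m * x := by ring
    exact lt_of_mul_lt_mul_right h3 (Nat.zero_le x)
  have hmle : ∀ l ∈ F, m ≤ l := fun l hl => F.min'_le l hl
  have hm2 : 2 ≤ m := (hprime m hmF).two_le
  -- product bound
  have hsub : F ⊆ (range (2 * m + 1)).filter Nat.Prime := by
    intro l hl
    rw [mem_filter, mem_range]
    exact ⟨by have := hlt l hl; omega, hprime l hl⟩
  have hprod1 : m ^ F.card ≤ ∏ l ∈ F, l := by
    rw [← Finset.prod_const]
    exact Finset.prod_le_prod' (fun l hl => hmle l hl)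
  have hprod2 : ∏ l ∈ F, l ≤ primorial (2 * m) := by
    unfold primorial
    refine Finset.prod_le_prod_of_subset_of_one_le' hsub ?_
    intro l hl _
    exact (mem_filter.1 hl).2.one_lt.le
  have hprod3 : m ^ F.card ≤ 4 ^ (2 * m) :=
    hprod1.trans (hprod2.trans (primorial_le_four_pow (2 * m)))
  have hmR : (2 : ℝ) ≤ m := by exact_mod_cast hm2
  have hlogm : (2 : ℝ) ^ (j - 1) * Real.log 2 ≤ Real.log m := by
    have h1 : (2 : ℝ) ^ 2 ^ (j - 1) ≤ m := by exact_mod_cast hlow m hmF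
    have h2 := Real.log_le_log (by positivity) h1
    rw [Real.log_pow] at h2
    push_cast at h2
    exact h2
  have hlog2 : 0 < Real.log 2 := Real.log_pos (by norm_num)
  have hcard : (F.card : ℝ) * Real.log m ≤ 4 * m * Real.log 2 := by
    have h1 : (m : ℝ) ^ F.card ≤ 4 ^ (2 * m) := by exact_mod_cast hprod3
    have h2 := Real.log_le_log (by positivity) h1
    rw [Real.log_pow, Real.log_pow] at h2
    have h4 : Real.log 4 = 2 * Real.log 2 := by
      rw [show (4 : ℝ) = 2 ^ 2 by norm_num, Real.log_pow]; norm_num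
    rw [h4] at h2
    push_cast at h2
    linarith
  have hcard2 : (F.card : ℝ) * 2 ^ (j - 1) ≤ 4 * m := by
    have h1 : (F.card : ℝ) * (2 ^ (j - 1) * Real.log 2) ≤ 4 * m * Real.log 2 :=
      (mul_le_mul_of_nonneg_left hlogm (Nat.cast_nonneg _)).trans hcard
    have h2 : ((F.card : ℝ) * 2 ^ (j - 1)) * Real.log 2 ≤ (4 * m) * Real.log 2 := by linarith
    exact le_of_mul_le_mul_right h2 hlog2
  have hsum : ∑ l ∈ F, (1 : ℝ) / l ≤ F.card * (1 / m) := by
    rw [← nsmul_eq_mul]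
    refine Finset.sum_le_card_nsmul _ _ _ ?_
    intro l hl
    have h1 : (m : ℝ) ≤ l := by exact_mod_cast hmle l hl
    exact one_div_le_one_div_of_le (by linarith) h1
  refine hsum.trans ?_
  have h2j : (2 : ℝ) ^ j = 2 * 2 ^ (j - 1) := by
    obtain ⟨i, rfl⟩ : ∃ i, j = i + 1 := ⟨j - 1, by omega⟩
    rw [pow_succ]; simp; ring
  rw [h2j, mul_one_div, div_le_div_iff₀ (by linarith) (by positivity)]
  linarith

/- TARGET -/
/-- splitting off the last group -/
private theorem split_group (J : ℕ) (f : ℕ → ℝ) :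
    ∑ l ∈ (range (2 ^ 2 ^ (J + 1))).filter Nat.Prime, f l =
      ∑ l ∈ (range (2 ^ 2 ^ J)).filter Nat.Prime, f l + ∑ l ∈ Gj (J + 1), f l := by
  have hle : 2 ^ 2 ^ J ≤ 2 ^ 2 ^ (J + 1) :=
    Nat.pow_le_pow_right (by norm_num) (Nat.pow_le_pow_right (by norm_num) (by omega))
  have hU : (range (2 ^ 2 ^ (J + 1))).filter Nat.Prime =
      (range (2 ^ 2 ^ J)).filter Nat.Prime ∪ Gj (J + 1) := by
    ext l
    simp only [Gj, mem_filter, mem_range, mem_union, mem_Ico, Nat.add_sub_cancel]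
    constructor
    · rintro ⟨h1, h2⟩
      rcases lt_or_ge l (2 ^ 2 ^ J) with h | h
      · exact Or.inl ⟨h, h2⟩
      · exact Or.inr ⟨⟨h, h1⟩, h2⟩
    · rintro (⟨h1, h2⟩ | ⟨⟨h1, h3⟩, h2⟩)
      · exact ⟨lt_of_lt_of_le h1 hle, h2⟩
      · exact ⟨h3, h2⟩
  have hD : Disjoint ((range (2 ^ 2 ^ J)).filter Nat.Prime) (Gj (J + 1)) := by
    rw [Finset.disjoint_left]
    intro l h1 h2
    simp only [Gj, mem_filter, mem_range, mem_Ico, Nat.add_sub_cancel] at h1 h2
    omega
  rw [hU, Finset.sum_union hD]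

/-- Chebyshev-Mertens: sum of `log l / l` -/
theorem log_sum : ∃ C : ℝ, 0 < C ∧ ∀ J : ℕ,
    ∑ l ∈ (range (2 ^ 2 ^ J)).filter Nat.Prime, Real.log l / l ≤ C * 2 ^ J := by
  obtain ⟨C, hC, h⟩ := mertens_group
  have hlog2 : 0 < Real.log 2 := Real.log_pos (by norm_num)
  refine ⟨2 * Real.log 2 * (Real.log 2 + C), by positivity, ?_⟩
  intro J
  induction J with
  | zero =>
    have : (range (2 ^ 2 ^ 0)).filter Nat.Prime = ∅ := by decide
    rw [this, Finset.sum_empty]; positivity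
  | succ J ih =>
    rw [split_group]
    have h1 : ∑ l ∈ Gj (J + 1), Real.log l / l ≤
        ∑ l ∈ Gj (J + 1), (2 ^ (J + 1) * Real.log 2) * ((1 : ℝ) / l) := by
      refine Finset.sum_le_sum ?_
      intro l hl
      rw [Gj, mem_filter, mem_Ico] at hl
      have hl1 : (0 : ℝ) < l := by exact_mod_cast hl.2.pos
      have hl2 : (l : ℝ) ≤ 2 ^ 2 ^ (J + 1) := by exact_mod_cast hl.1.2.le
      have hl3 := Real.log_le_log hl1 hl2
      rw [Real.log_pow] at hl3
      push_cast at hl3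
      rw [mul_one_div]
      exact div_le_div_of_nonneg_right hl3 hl1.le
    rw [← Finset.mul_sum] at h1
    have h2 : ∑ l ∈ Gj (J + 1), (1 : ℝ) / l ≤ Real.log 2 + C := by
      have h3 := (abs_le.1 (h (J + 1) (by omega))).2
      have h4 : C / 2 ^ (J + 1) ≤ C := by
        refine div_le_self hC.le ?_
        exact one_le_pow₀ (by norm_num)
      linarith
    have h5 : (2 ^ (J + 1) * Real.log 2) * ∑ l ∈ Gj (J + 1), (1 : ℝ) / l ≤
        (2 ^ (J + 1) * Real.log 2) * (Real.log 2 + C) :=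
      mul_le_mul_of_nonneg_left h2 (by positivity)
    have h6 : (2 : ℝ) ^ (J + 1) = 2 * 2 ^ J := by rw [pow_succ]; ring
    rw [h6] at h1 h5 ⊢
    linarith

/- TARGET -/
/-- sum of the reciprocals -/
private theorem recip_sum : ∃ C : ℝ, 0 < C ∧ ∀ J : ℕ,
    |∑ l ∈ (range (2 ^ 2 ^ J)).filter Nat.Prime, (1 : ℝ) / l - J * Real.log 2| ≤ C := by
  obtain ⟨C, hC, h⟩ := mertens_group
  refine ⟨C, hC, ?_⟩
  have key : ∀ J : ℕ,
      |∑ l ∈ (range (2 ^ 2 ^ J)).filter Nat.Prime, (1 : ℝ) / l - J * Real.log 2| ≤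
        C * (1 - 1 / 2 ^ J) := by
    intro J
    induction J with
    | zero =>
      have : (range (2 ^ 2 ^ 0)).filter Nat.Prime = ∅ := by decide
      rw [this, Finset.sum_empty]; simp
    | succ J ih =>
      rw [split_group]
      have h1 := abs_le.1 (h (J + 1) (by omega))
      have h2 := abs_le.1 ih
      have e1 : (2 : ℝ) ^ (J + 1) = 2 * 2 ^ J := by rw [pow_succ]; ring
      have e2 : (1 : ℝ) / 2 ^ J = 2 * (1 / 2 ^ (J + 1)) := by
        rw [e1]; field_simp
      have e3 : C / 2 ^ (J + 1) = C * (1 / 2 ^ (J + 1)) := by ring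
      rw [e3] at h1
      rw [e2] at h2
      push_cast
      rw [abs_le]
      constructor <;> nlinarith [h1.1, h1.2, h2.1, h2.2]
  intro J
  refine (key J).trans ?_
  have : (0 : ℝ) ≤ 1 / 2 ^ J := by positivity
  nlinarith

/-- telescoping sum -/
private theorem tele (N : ℕ) :
    ∑ l ∈ (range N).filter Nat.Prime, ((1 : ℝ) / (l - 1) - 1 / l) ≤ 1 := by
  have h1 : ∀ N : ℕ, ∑ l ∈ (range (N + 2)).filter (fun l => 2 ≤ l),
      ((1 : ℝ) / (l - 1) - 1 / l) = 1 - 1 / (N + 1) := by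
    intro N
    induction N with
    | zero =>
      have : (range (0 + 2)).filter (fun l => 2 ≤ l) = ∅ := by decide
      rw [this, Finset.sum_empty]; simp
    | succ N ih =>
      rw [show N + 1 + 2 = (N + 2) + 1 by ring, Finset.range_add_one, Finset.filter_insert,
        if_pos (by omega), Finset.sum_insert (by simp), ih]
      push_cast
      have a1 : (N : ℝ) + 1 ≠ 0 := by positivity
      have a2 : (N : ℝ) + 2 ≠ 0 := by positivity
      have a3 : (N : ℝ) + 2 - 1 ≠ 0 := by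
        have : (N : ℝ) + 2 - 1 = N + 1 := by ring
        rw [this]; exact a1
      have a4 : (N : ℝ) + 1 + 1 ≠ 0 := by positivity
      have e5 : (N : ℝ) + 2 - 1 = N + 1 := by ring
      have e6 : (N : ℝ) + 1 + 1 = N + 2 := by ring
      rw [e5, e6]
      ring
  have h2 : ∑ l ∈ (range N).filter Nat.Prime, ((1 : ℝ) / (l - 1) - 1 / l) ≤
      ∑ l ∈ (range (N + 2)).filter (fun l => 2 ≤ l), ((1 : ℝ) / (l - 1) - 1 / l) := by
    refine Finset.sum_le_sum_of_subset_of_nonneg ?_ ?_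
    · intro l hl
      rw [mem_filter, mem_range] at hl ⊢
      exact ⟨by omega, hl.2.two_le⟩
    · intro l hl _
      rw [mem_filter] at hl
      have : (2 : ℝ) ≤ l := by exact_mod_cast hl.2
      have : (1 : ℝ) / l ≤ 1 / (l - 1) := one_div_le_one_div_of_le (by linarith) (by linarith)
      linarith
  rw [h1] at h2
  have : (0 : ℝ) ≤ 1 / (N + 1) := by positivity
  linarith

/-- Mertens' product over the primes below `2^(2^J)` -/
theorem mertens_prod : ∃ c C : ℝ, 0 < c ∧ 0 < C ∧ ∀ J : ℕ,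
    c / 2 ^ J ≤ ∏ l ∈ (range (2 ^ 2 ^ J)).filter Nat.Prime, (1 - (1 : ℝ) / l) ∧
    ∏ l ∈ (range (2 ^ 2 ^ J)).filter Nat.Prime, (1 - (1 : ℝ) / l) ≤ C / 2 ^ J := by
  obtain ⟨C, hC, h⟩ := recip_sum
  refine ⟨Real.exp (-C - 1), Real.exp C, Real.exp_pos _, Real.exp_pos _, ?_⟩
  intro J
  have hJ := abs_le.1 (h J)
  have hpow : (2 : ℝ) ^ J = Real.exp (J * Real.log 2) := by
    rw [mul_comm, Real.exp_mul, Real.exp_log (by norm_num), Real.rpow_natCast]
  rw [hpow, ← Real.exp_sub, ← Real.exp_sub]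
  constructor
  · have h1 : Real.exp (∑ l ∈ (range (2 ^ 2 ^ J)).filter Nat.Prime, (-(1 : ℝ) / (l - 1))) ≤
        ∏ l ∈ (range (2 ^ 2 ^ J)).filter Nat.Prime, (1 - (1 : ℝ) / l) := by
      rw [Real.exp_sum]
      refine Finset.prod_le_prod (fun l _ => (Real.exp_pos _).le) ?_
      intro l hl
      have hl2 : (2 : ℝ) ≤ l := by exact_mod_cast (mem_filter.1 hl).2.two_le
      have h2 : (1 : ℝ) + 1 / (l - 1) ≤ Real.exp (1 / (l - 1)) := by
        have := Real.add_one_le_exp (1 / ((l : ℝ) - 1))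
        linarith
      have h3 : (0 : ℝ) < l - 1 := by linarith
      have h4 : (0 : ℝ) < 1 + 1 / (l - 1) := by positivity
      have h5 : -(1 : ℝ) / (l - 1) = -(1 / (l - 1)) := by ring
      rw [h5, Real.exp_neg]
      have h6 : (1 : ℝ) - 1 / (l : ℝ) = (1 + 1 / ((l : ℝ) - 1))⁻¹ := by
        have h9 : (l : ℝ) ≠ 0 := by linarith
        have h10 : (1 : ℝ) + 1 / ((l : ℝ) - 1) = l / (l - 1) := by field_simp; ring
        rw [h10, inv_div]
        field_simp
      rw [h6]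
      exact inv_anti₀ h4 h2
    refine le_trans (Real.exp_le_exp.2 ?_) h1
    have h7 : ∑ l ∈ (range (2 ^ 2 ^ J)).filter Nat.Prime, (-(1 : ℝ) / (l - 1)) =
        -∑ l ∈ (range (2 ^ 2 ^ J)).filter Nat.Prime, ((1 : ℝ) / (l - 1) - 1 / l) -
        ∑ l ∈ (range (2 ^ 2 ^ J)).filter Nat.Prime, (1 : ℝ) / l := by
      rw [← Finset.sum_neg_distrib, ← Finset.sum_sub_distrib]
      refine Finset.sum_congr rfl ?_
      intro l _
      ring
    rw [h7]
    have h8 := tele (2 ^ 2 ^ J)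
    linarith [hJ.2]
  · have h1 : ∏ l ∈ (range (2 ^ 2 ^ J)).filter Nat.Prime, (1 - (1 : ℝ) / l) ≤
        Real.exp (∑ l ∈ (range (2 ^ 2 ^ J)).filter Nat.Prime, (-((1 : ℝ) / l))) := by
      rw [Real.exp_sum]
      refine Finset.prod_le_prod ?_ ?_
      · intro l hl
        have hl2 : (1 : ℝ) ≤ l := by exact_mod_cast (mem_filter.1 hl).2.one_lt.le
        have : (1 : ℝ) / l ≤ 1 := by
          rw [div_le_one (by linarith)]; exact hl2
        linarith
      · intro l _
        have := Real.add_one_le_exp (-((1 : ℝ) / l))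
        linarith
    refine h1.trans (Real.exp_le_exp.2 ?_)
    rw [Finset.sum_neg_distrib]
    linarith [hJ.1]

end Pool.Agent.Helper112.LP.Kmt

namespace Pool.Agent.Helper112.LP

/-- few primes `l` of a group such that `l * x` has a given binary length -/
theorem short_group : ∃ C : ℝ, 0 < C ∧ ∀ j : ℕ, 1 ≤ j → ∀ x k : ℕ, 1 ≤ x →
    ∑ l ∈ (Gj j).filter (fun l => Nat.log 2 (l * x) = k), (1 : ℝ) / l ≤ C / 2 ^ j := by
  first
    | exact Kmt.short_group
    | (apply Kmt.short_group <;> assumption)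

/-- Chebyshev-Mertens: sum of `log l / l` -/
theorem log_sum : ∃ C : ℝ, 0 < C ∧ ∀ J : ℕ,
    ∑ l ∈ (range (2 ^ 2 ^ J)).filter Nat.Prime, Real.log l / l ≤ C * 2 ^ J := by
  first
    | exact Kmt.log_sum
    | (apply Kmt.log_sum <;> assumption)

/-- Mertens' product over the primes below `2^(2^J)` -/
theorem mertens_prod : ∃ c C : ℝ, 0 < c ∧ 0 < C ∧ ∀ J : ℕ,
    c / 2 ^ J ≤ ∏ l ∈ (range (2 ^ 2 ^ J)).filter Nat.Prime, (1 - (1 : ℝ) / l) ∧
    ∏ l ∈ (range (2 ^ 2 ^ J)).filter Nat.Prime, (1 - (1 : ℝ) / l) ≤ C / 2 ^ J := by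
  first
    | exact Kmt.mertens_prod
    | (apply Kmt.mertens_prod <;> assumption)

end Pool.Agent.Helper112.LP
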